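import Mathlib

/-!
# Selective high divergence passes to the Pixley-Roy hyperspace
-/

set_option autoImplicit false

open Set Filter Topology

namespace Pool.Agent.Results.MP_3a5480_gt.PixleyRoySHD

universe u

/-- `X` is selectively highly divergent: for every sequence of nonempty open sets one can choose
points of these sets such that no subsequence of the sequence of the points converges. -/
def SHD (X : Type u) [TopologicalSpace X] : Prop :=
  ∀ U : ℕ → Set X, (∀ n, IsOpen (U n)) → (∀ n, (U n).Nonempty) →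
    ∃ x : ℕ → X, (∀ n, x n ∈ U n) ∧
      ∀ φ : ℕ → ℕ, StrictMono φ → ¬ ∃ a : X, Tendsto (x ∘ φ) atTop (𝓝 a)

/-- The points of the Pixley-Roy hyperspace: the nonempty finite subsets of `X`. -/
def PixleyRoy (X : Type u) : Type u := {A : Set X // A.Finite ∧ A.Nonempty}

/-- The topology of the Pixley-Roy hyperspace: the sets
`[F, V] = {H | F ⊆ H ⊆ V}`, `V` open, `F ⊆ V`, form a local base at `F`. -/
instance (X : Type u) [TopologicalSpace X] : TopologicalSpace (PixleyRoy X) where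
  IsOpen 𝒰 := ∀ F ∈ 𝒰, ∃ V : Set X, IsOpen V ∧ F.1 ⊆ V ∧
    {H : PixleyRoy X | F.1 ⊆ H.1 ∧ H.1 ⊆ V} ⊆ 𝒰
  isOpen_univ := fun F _ => ⟨univ, isOpen_univ, subset_univ _, subset_univ _⟩
  isOpen_inter := by
    rintro 𝒰 𝒱 h𝒰 h𝒱 F ⟨hF1, hF2⟩
    obtain ⟨V, hV, hFV, hVU⟩ := h𝒰 F hF1
    obtain ⟨W, hW, hFW, hWV⟩ := h𝒱 F hF2
    refine ⟨V ∩ W, hV.inter hW, subset_inter hFV hFW, ?_⟩
    rintro H ⟨h1, h2⟩
    exact ⟨hVU ⟨h1, h2.trans inter_subset_left⟩, hWV ⟨h1, h2.trans inter_subset_right⟩⟩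
  isOpen_sUnion := by
    rintro S hS F ⟨𝒰, h𝒰, hF⟩
    obtain ⟨V, hV, hFV, hVU⟩ := hS 𝒰 h𝒰 F hF
    exact ⟨V, hV, hFV, hVU.trans (subset_sUnion_of_mem h𝒰)⟩

theorem isOpen_basic {X : Type u} [TopologicalSpace X] (F : Set X) {V : Set X} (hV : IsOpen V) :
    IsOpen {H : PixleyRoy X | F ⊆ H.1 ∧ H.1 ⊆ V} := by
  rintro G ⟨hG1, hG2⟩
  exact ⟨V, hV, hG2, fun H hH => ⟨hG1.trans hH.1, hH.2⟩⟩

/-- if no subsequence of `x` converges then every finite set has an open neighbourhood missing a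
subsequence of `x` -/
theorem exists_nbhd {X : Type u} [TopologicalSpace X] {H : Set X} (hH : H.Finite) :
    ∀ x : ℕ → X, (∀ φ : ℕ → ℕ, StrictMono φ → ¬ ∃ a : X, Tendsto (x ∘ φ) atTop (𝓝 a)) →
      ∃ V : Set X, IsOpen V ∧ H ⊆ V ∧ ∃ φ : ℕ → ℕ, StrictMono φ ∧ ∀ k, x (φ k) ∉ V := by
  induction H, hH using Set.Finite.induction_on with
  | empty => exact fun x _ => ⟨∅, isOpen_empty, subset_rfl, id, strictMono_id, fun _ h => h⟩
  | @insert a H ha _ ih =>
    intro x hx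
    obtain ⟨V, hV, hHV, φ, hφ, hφV⟩ := ih x hx
    have h1 : ¬ Tendsto (x ∘ φ) atTop (𝓝 a) := fun h => hx φ hφ ⟨a, h⟩
    rw [tendsto_nhds] at h1
    push Not at h1
    obtain ⟨W, hW, haW, hfreq⟩ := h1
    have h2 : ∃ᶠ k in atTop, x (φ k) ∉ W := by
      intro h3
      apply hfreq
      filter_upwards [h3] with k hk
      exact not_not.1 hk
    obtain ⟨ψ, hψ, hψW⟩ := extraction_of_frequently_atTop h2
    refine ⟨W ∪ V, hW.union hV, insert_subset (Or.inl haW) (hHV.trans subset_union_right),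
      φ ∘ ψ, hφ.comp hψ, ?_⟩
    rintro k (h | h)
    · exact hψW k h
    · exact hφV _ h

/-- Affirmative answer: if a topological space `X` (in particular a `T₁` space) is selectively
highly divergent, then so is its Pixley-Roy hyperspace. -/
theorem result (X : Type u) [TopologicalSpace X] (hX : SHD X) : SHD (PixleyRoy X) := by
  intro U hU hne
  choose F hF using hne
  choose V hV hFV hVU using fun n => hU n (F n) (hF n)
  obtain ⟨x, hxV, hx⟩ := hX V hV fun n => (F n).2.2.mono (hFV n)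
  refine ⟨fun n => ⟨insert (x n) (F n).1, (F n).2.1.insert _, insert_nonempty _ _⟩, ?_, ?_⟩
  · intro n
    exact hVU n ⟨subset_insert _ _, insert_subset (hxV n) (hFV n)⟩
  · rintro φ hφ ⟨H, hH⟩
    obtain ⟨W, hW, hHW, ψ, hψ, hψW⟩ := exists_nbhd H.2.1 (x ∘ φ)
      (fun ψ hψ h => hx (φ ∘ ψ) (hφ.comp hψ) h)
    have hnb := (isOpen_basic H.1 hW).mem_nhds
      (show H ∈ {G : PixleyRoy X | H.1 ⊆ G.1 ∧ G.1 ⊆ W} from ⟨subset_rfl, hHW⟩)
    obtain ⟨k, hk⟩ := ((hH.comp hψ.tendsto_atTop).eventually hnb).exists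
    exact hψW k (hk.2 (mem_insert _ _))

end Pool.Agent.Results.MP_3a5480_gt.PixleyRoySHD
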